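import Pool.Agent.Helper15.SA.Main
import Pool.Agent.Helper79.EMS.Sharp

set_option autoImplicit false

namespace Pool.Agent.Results.MP_120218_co.ActingExchanges

open Finset

/-- **Few primes, or prime exchanges, acting on a set of integers already make its sumsets of
maximal size.**

(1) For all `k`, all `ε, κ > 0`, all real `b` and all `H` there are `C, c > 0` such that: let
`B ⊆ A` be finite sets of integers, `A` non-empty, `0 ∉ B`, `|B| ≥ |A|^(1-c)`, let `X` be a finite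
non-empty set of integers with `|X| ≤ |A|^b`, let `T` be a set of primes with
`|T| log log |A| ≥ C log |A|`, and let `u p, v p` (`p ∈ T`) be natural numbers which are not
divisible by any prime of `T`, such that for any two distinct `q, r ∈ T` at most `H` primes `p ∈ T`
with `p > q, r` divide `q u_q v_r - r u_r v_q`. If for every `p ∈ T` at least `κ |B|` elements `x`
of `B` satisfy `p u_p x ∈ v_p B`, then `|X + kA| ≥ c |X| |A|^(k - ε)`.

With `u = v = 1`, `H = 0`, `B = A`, `X = {0}`: if `0 ∉ A` and `|A ∩ pA| ≥ κ |A|` for at least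
`C log |A| / log log |A|` primes `p`, then `|kA| ≥ c |A|^(k - ε)`. If `u_p, v_p ≤ p^h` one can take
`H = 2 h + 1`; if `u`, `v` do not depend on `p` one can take `H = 0`.

(2) The number of primes in (1) is best possible up to the constant `C`, already for `u = v = 1`,
`κ = 1/2`: for every `η > 0` there is `c > 0` such that there are arbitrarily large sets `A` and
sets `T` of primes with `|T| log log |A| ≥ c log |A|` and `|A ∩ pA| ≥ |A|/2` for `p ∈ T`, for which
`|kA| ≤ (k + 1) |A|^(1 + η)` for all `k`. -/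
theorem result :
    (∀ k : ℕ, ∀ ε κ b : ℝ, ∀ H : ℕ, 0 < ε → 0 < κ →
      ∃ C c : ℝ, 0 < C ∧ 0 < c ∧
      ∀ A B X : Finset ℤ, A.Nonempty → B ⊆ A → (0 : ℤ) ∉ B →
        (A.card : ℝ) ^ (1 - c) ≤ (B.card : ℝ) →
        X.Nonempty → (X.card : ℝ) ≤ (A.card : ℝ) ^ b →
        ∀ (T : Finset ℕ) (u v : ℕ → ℕ), (∀ p ∈ T, p.Prime) →
          C * Real.log (A.card : ℝ) ≤ T.card * Real.log (Real.log (A.card : ℝ)) →
          (∀ p ∈ T, ∀ r ∈ T, ¬ p ∣ u r ∧ ¬ p ∣ v r) →
          (∀ q ∈ T, ∀ r ∈ T, q ≠ r → (T.filter (fun p => q < p ∧ r < p ∧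
            (p : ℤ) ∣ (q : ℤ) * u q * v r - (r : ℤ) * u r * v q)).card ≤ H) →
          (∀ p ∈ T, κ * (B.card : ℝ) ≤ ((B.filter (fun x => ∃ y ∈ B,
            (p : ℤ) * (u p : ℤ) * x = (v p : ℤ) * y)).card : ℝ)) →
          c * X.card * (A.card : ℝ) ^ ((k : ℝ) - ε) ≤
            (((X ×ˢ Fintype.piFinset (fun _ : Fin k => A)).image
              (fun f : ℤ × (Fin k → ℤ) => f.1 + ∑ i, f.2 i)).card : ℝ)) ∧
    (∀ η : ℝ, 0 < η → ∃ c : ℝ, 0 < c ∧ ∀ N₀ : ℕ,
      ∃ (A : Finset ℤ) (T : Finset ℕ), N₀ ≤ A.card ∧ (0 : ℤ) ∉ A ∧ (∀ p ∈ T, p.Prime) ∧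
        c * Real.log (A.card : ℝ) ≤ (T.card : ℝ) * Real.log (Real.log (A.card : ℝ)) ∧
        (∀ p ∈ T, (1 / 2 : ℝ) * (A.card : ℝ) ≤
          ((A.filter (fun x => (p : ℤ) * x ∈ A)).card : ℝ)) ∧
        ∀ k : ℕ, (((Fintype.piFinset (fun _ : Fin k => A)).image
          (fun f : Fin k → ℤ => ∑ i, f i)).card : ℝ) ≤
            ((k : ℝ) + 1) * (A.card : ℝ) ^ (1 + η)) :=
  ⟨fun k ε κ b H hε hκ => Pool.Agent.Helper15.SA.acting_sharp k ε κ b H hε hκ,
    fun η hη => Pool.Agent.Helper79.EMS.order_optimal η hη⟩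

end Pool.Agent.Results.MP_120218_co.ActingExchanges
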